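import Pool.Agent.H73.CBD.Stmts

/-!
Board `cbd`, row INT: interpolation.
-/

set_option autoImplicit false

open Set Filter Topology

namespace Pool.CBD

theorem int_exp {θ M : ℝ} (hθ : 0 < θ) (hθ2 : θ < 2) (hM : 0 < M) :
    ∃ α : ℝ, 0 < α ∧ α ≤ 1 ∧ θ ^ (1 - α) * M ^ α < 2 := by
  have hcont : Continuous fun α : ℝ => θ ^ (1 - α) * M ^ α := by
    apply Continuous.mul
    · exact Continuous.rpow continuous_const (continuous_const.sub continuous_id)
        (fun _ => Or.inl hθ.ne')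
    · exact Continuous.rpow continuous_const continuous_id (fun _ => Or.inl hM.ne')
  have h0 : θ ^ (1 - (0 : ℝ)) * M ^ (0 : ℝ) < 2 := by simpa using hθ2
  have h1 : ∀ᶠ α in 𝓝 (0 : ℝ), θ ^ (1 - α) * M ^ α < 2 :=
    (hcont.tendsto 0).eventually_lt_const h0
  obtain ⟨ε, hε, h2⟩ := Metric.eventually_nhds_iff.1 h1
  refine ⟨min (ε / 2) 1, lt_min (by positivity) one_pos, min_le_right _ _, h2 ?_⟩
  rw [Real.dist_eq, sub_zero, abs_of_pos (lt_min (by positivity) one_pos)]
  exact lt_of_le_of_lt (min_le_left _ _) (by linarith)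

theorem int_min {x p q α : ℝ} (hx : 0 ≤ x) (hp : x ≤ p) (hq : x ≤ q) (hα0 : 0 < α)
    (hα1 : α ≤ 1) : x ≤ p ^ (1 - α) * q ^ α := by
  have hp0 : 0 ≤ p := hx.trans hp
  have hq0 : 0 ≤ q := hx.trans hq
  rcases hx.eq_or_lt with h | h
  · rw [← h]
    positivity
  · calc x = x ^ (1 - α) * x ^ α := by
          rw [← Real.rpow_add h, sub_add_cancel, Real.rpow_one]
      _ ≤ p ^ (1 - α) * q ^ α := by
          apply mul_le_mul
          · exact Real.rpow_le_rpow hx hp (by linarith)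
          · exact Real.rpow_le_rpow hx hq hα0.le
          · positivity
          · positivity

theorem int_summable {C θ : ℝ} (hθ : 0 < θ) (hθ2 : θ < 2) {a : ℕ → ℂ}
    (ha : ∀ k, ‖a k‖ ≤ C * θ ^ k) : Summable fun k : ℕ => a k / 2 ^ (k + 1) := by
  have h1 : Summable fun k : ℕ => C / 2 * (θ / 2) ^ k :=
    (summable_geometric_of_lt_one (by positivity) (by linarith)).mul_left _
  apply Summable.of_norm_bounded h1
  intro k
  rw [norm_div, norm_pow, Complex.norm_ofNat, div_le_iff₀ (by positivity)]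
  calc ‖a k‖ ≤ C * θ ^ k := ha k
    _ = C / 2 * (θ / 2) ^ k * 2 ^ (k + 1) := by
        rw [div_pow]
        field_simp
        ring

theorem INT_thm : INTStmt := by
  intro θ C M C' hθ hθ2 hC hM hC'
  have hM0 : 0 < M := lt_of_lt_of_le one_pos hM
  obtain ⟨α, hα0, hα1, hr⟩ := int_exp hθ hθ2 hM0
  set r : ℝ := θ ^ (1 - α) * M ^ α with hrdef
  have hr0 : 0 < r := by positivity
  set A : ℝ := (2 * C) ^ (1 - α) * C' ^ α with hAdef
  have hA0 : 0 < A := by positivity
  have h2r : 0 < 2 - r := by linarith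
  refine ⟨α, A / (2 - r), hα0, hα1, by positivity, ?_⟩
  intro a b d hd0 _ ha hb hab
  have key : ∀ k, ‖a k - b k‖ ≤ A * d ^ α * r ^ k := by
    intro k
    have h1 : ‖a k - b k‖ ≤ 2 * C * θ ^ k := by
      calc ‖a k - b k‖ ≤ ‖a k‖ + ‖b k‖ := norm_sub_le _ _
        _ ≤ C * θ ^ k + C * θ ^ k := add_le_add (ha k) (hb k)
        _ = 2 * C * θ ^ k := by ring
    refine (int_min (norm_nonneg _) h1 (hab k) hα0 hα1).trans (le_of_eq ?_)
    rw [Real.mul_rpow (by positivity) (by positivity),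
      Real.mul_rpow (by positivity) hd0, Real.mul_rpow hC'.le (by positivity),
      ← Real.rpow_natCast θ k, ← Real.rpow_natCast M k, ← Real.rpow_mul hθ.le,
      ← Real.rpow_mul hM0.le, mul_comm (k : ℝ) (1 - α), mul_comm (k : ℝ) α,
      Real.rpow_mul hθ.le, Real.rpow_mul hM0.le, Real.rpow_natCast, Real.rpow_natCast, hAdef,
      hrdef, mul_pow]
    ring
  rw [← (int_summable hθ hθ2 ha).tsum_sub (int_summable hθ hθ2 hb)]
  have hg : HasSum (fun k : ℕ => A * d ^ α / 2 * (r / 2) ^ k)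
      (A * d ^ α / 2 * (1 - r / 2)⁻¹) :=
    (hasSum_geometric_of_lt_one (by positivity) (by linarith)).mul_left _
  refine (tsum_of_norm_bounded hg fun k => ?_).trans (le_of_eq ?_)
  · rw [← sub_div, norm_div, norm_pow, Complex.norm_ofNat, div_le_iff₀ (by positivity)]
    refine (key k).trans (le_of_eq ?_)
    rw [div_pow]
    field_simp
    ring
  · have h3 : 1 - r / 2 = (2 - r) / 2 := by ring
    rw [h3, inv_div]
    field_simp

end Pool.CBD
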